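import Pool.Agent.Lib_helper77.KSS.Defs

/-!
# Strictness (K-stability) of very general Fano complete intersections: definitions
MP_2c2240_ag, note 2189.
-/

namespace Pool.Agent.KSX

open MvPolynomial Pool.Agent.KSS Filter Topology

/-- order of the jet `x` at the vertex: minimum of the orders of the coordinates -/
noncomputable def c0J {κ : Type} [Field κ] {v L : ℕ} (x : Fin v → Fin L → κ) : ℕ :=
  ⨅ i, ordL L (arc (x i))

/-- the numbers attached to a jet: length, transcendence degree, dimensions of the filtration,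
orders of the forms, order at the vertex -/
structure Rec (p : ℕ) where
  L : ℕ
  τ : ℕ
  fil : ℕ → ℕ → ℕ
  g : Fin p → ℕ
  c0 : ℕ

instance {p : ℕ} : Inhabited (Rec p) := ⟨⟨0, 0, fun _ _ => 0, fun _ => 0, 0⟩⟩

/-- `R` is the record of a jet in `v` variables with generic forms of degrees `d i` -/
def Rec.Of {p : ℕ} (d : Fin p → ℕ) (v : ℕ) (R : Rec p) : Prop :=
  ∃ (k : Type) (_ : Field k) (_ : CharZero k) (G : Fin p → MvPolynomial (Fin v) k)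
    (κ : Type) (_ : Field κ) (_ : Algebra k κ) (x : Fin v → Fin R.L → κ),
    Gen d G ∧ tauJ k x = R.τ ∧
      (∀ m l, l ≤ R.L → Module.finrank k (Fil k x m l) = R.fil m l) ∧
      (∀ i, ordL R.L (ev x (G i)) = R.g i) ∧ c0J x = R.c0

/-- `σ_B(R, m)` -/
noncomputable def Rec.sig {p : ℕ} (R : Rec p) (d : Fin p → ℕ) (v : ℕ) (B : Finset (Fin p))
    (m : ℕ) : ℝ :=
  ∑ l ∈ Finset.Icc 1 R.L, ((R.fil m l : ℝ) - (NN d v ∅ m : ℝ) + (NN d v B m : ℝ))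

/-- codimension `(v - |B|) L - τ` -/
noncomputable def Rec.cd {p : ℕ} (R : Rec p) (v : ℕ) (B : Finset (Fin p)) : ℝ :=
  ((v : ℝ) - B.card) * R.L - R.τ

/-- `H_B(q) = ∏_B (1 - q^{d_i}) / (1 - q)^v` -/
noncomputable def Hq {p : ℕ} (d : Fin p → ℕ) (v : ℕ) (B : Finset (Fin p)) (q : ℝ) : ℝ :=
  (∏ i ∈ B, (1 - q ^ (d i))) / (1 - q) ^ v

/-- `∑ m H_B(m) q^m` -/
noncomputable def Wq {p : ℕ} (d : Fin p → ℕ) (v : ℕ) (B : Finset (Fin p)) (q : ℝ) : ℝ :=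
  Hq d v B q * (v * q / (1 - q) - ∑ i ∈ B, (d i : ℝ) * q ^ (d i) / (1 - q ^ (d i)))

/-- `Λ(R) = ∑_{m ≤ M0} q^m σ_B(R, m)` -/
noncomputable def Rec.Lam {p : ℕ} (R : Rec p) (d : Fin p → ℕ) (v : ℕ) (B : Finset (Fin p))
    (q : ℝ) (M0 : ℕ) : ℝ :=
  ∑ m ∈ Finset.range (M0 + 1), q ^ m * R.sig d v B m

/-- the mean slope `s(R)` -/
noncomputable def Rec.s {p : ℕ} (R : Rec p) (d : Fin p → ℕ) (v : ℕ) (B : Finset (Fin p))
    (q : ℝ) (M0 : ℕ) : ℝ :=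
  R.Lam d v B q M0 / Wq d v B q

/-- the index `v - ∑_B d_i` -/
noncomputable def Ind {p : ℕ} (d : Fin p → ℕ) (v : ℕ) (B : Finset (Fin p)) : ℝ :=
  (v : ℝ) - ∑ i ∈ B, (d i : ℝ)

/-- number of monomials of degree `m` and order `< l` in the weighted polynomial ring with
variables `t : T` of degrees `deg t` and orders `ord t` -/
noncomputable def cnt {T : Type} [Fintype T] (deg ord : T → ℕ) (m l : ℕ) : ℕ :=
  Nat.card {b : T → ℕ // ∑ t, deg t * b t = m ∧ ∑ t, ord t * b t < l}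

/-- the order of the monomial `y^{a - min a} z^{min a}` -/
noncomputable def wt {n : ℕ} (e : Fin n → ℕ) (η : ℕ) (a : Fin n → ℕ) : ℕ :=
  ∑ i, (a i - mina a) * e i + mina a * η

/-- conclusions of the torus lemma, for records -/
structure TorusOut {p : ℕ} (d : Fin p → ℕ) (v : ℕ) (j : Fin p) (M0 : ℕ) (R R' : Rec p)
    (e : Fin (d j) → ℕ) (η : ℕ) : Prop where
  of : R'.Of d (v - d j)
  L_eq : R'.L = R.L
  e_le : ∀ l, e l ≤ R.L
  eta_le : η ≤ R.L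
  g_le : ∀ i, i ≠ j → R.g i ≤ R'.g i
  gj_le : R.g j ≤ η
  gj' : R'.g j = min R.L (∑ l, e l)
  tau_le : R.τ + η + (∑ l, e l - R.L) ≤ R'.τ + d j * R.L
  fil_le : ∀ m ≤ M0, ∀ l, 1 ≤ l → l ≤ R.L →
    R.fil m l ≤ ∑ a ∈ Exps (d j) m, R'.fil (m - ∑ i, a i) (l - wt e η a)

/-- the index type of the coordinates used in the refined local inequality: the `y_l`, `l ≠ l0`,
`n'` of the coordinates `x'`, and the forms `G_i`, `i ∈ E` -/
abbrev TI {p : ℕ} (d : Fin p → ℕ) (j : Fin p) (l0 : Fin (d j)) (n' : ℕ) (E : Finset (Fin p)) :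
    Type :=
  ({l : Fin (d j) // l ≠ l0} ⊕ Fin n') ⊕ E

/-- degrees of these coordinates -/
def tdeg {p : ℕ} (d : Fin p → ℕ) (j : Fin p) (l0 : Fin (d j)) (n' : ℕ) (E : Finset (Fin p)) :
    TI d j l0 n' E → ℕ :=
  Sum.elim (fun _ => 1) (fun i => d i)

/-- the slack in the refined local inequality -/
noncomputable def Theta {p : ℕ} (d : Fin p → ℕ) (v : ℕ) (F : Finset (Fin p)) (j : Fin p)
    (R R' : Rec p) (η : ℕ) : ℝ :=
  (v : ℝ) * R.L - R.τ - η - ((v : ℝ) - d j + 1 - F.card) * R'.c0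
    + ∑ i ∈ F.erase j, (((d i : ℝ) - 1) * R'.c0 - R'.g i)

/-- conclusions of the refined local inequality at `l0`, for records -/
structure RitOut {p : ℕ} (d : Fin p → ℕ) (v : ℕ) (B E : Finset (Fin p)) (j : Fin p) (M0 : ℕ)
    (R R' : Rec p) (e : Fin (d j) → ℕ) (η : ℕ) (l0 : Fin (d j))
    (o : TI d j l0 (v - d j + 1 - (B ∪ E).card) E → ℕ) : Prop where
  card_le : (B ∪ E).card ≤ v - d j + 1
  cnt_le : ∀ m ≤ M0, ∀ l ≤ R.L,
    (cnt (tdeg d j l0 (v - d j + 1 - (B ∪ E).card) E) o m l : ℤ) + R.fil m l ≤ NN d v ∅ m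
  sum_le : ∑ t, o t + R.τ + B.card * R.L ≤ v * R.L
  o_ge : ∀ i : E, R.g i ≤ o (Sum.inr i)
  o_y : ∀ l : {l : Fin (d j) // l ≠ l0},
    (o (Sum.inl (Sum.inl l)) : ℝ) ≤ e l + Theta d v (B ∪ E) j R R' η
  o_x : ∀ q : Fin (v - d j + 1 - (B ∪ E).card),
    (o (Sum.inl (Sum.inr q)) : ℝ) ≤ R'.c0 + Theta d v (B ∪ E) j R R' η
  o_g : ∀ i : E, (i : Fin p) ≠ j →
    (o (Sum.inr i) : ℝ) ≤ R'.g i + Theta d v (B ∪ E) j R R' η
  o_j : ∀ i : E, (i : Fin p) = j →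
    (o (Sum.inr i) : ℝ) ≤ η + Theta d v (B ∪ E) j R R' η

/-- `s(R_n)` -/
noncomputable def sn {p : ℕ} (d : Fin p → ℕ) (v : ℕ) (B : Finset (Fin p)) {ι : Type}
    (R : ι → Rec p) (q : ι → ℝ) (M0 : ι → ℕ) (n : ι) : ℝ :=
  (R n).s d v B (q n) (M0 n)

/-- near equality along an ultrafilter: `R_n` are records of jets of the ring
`k[X_1..X_v]/(G_i : i ∈ B)` and asymptotically `cd = (index) s`, `ord G_i = d_i s` (`i ∈ E`) -/
structure NE {p : ℕ} (d : Fin p → ℕ) (v : ℕ) (B E : Finset (Fin p)) {ι : Type}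
    (U : Ultrafilter ι) (R : ι → Rec p) (q : ι → ℝ) (M0 : ι → ℕ) : Prop where
  of : ∀ᶠ n in U, (R n).Of d v
  gB : ∀ᶠ n in U, ∀ i ∈ B, (R n).g i = (R n).L
  q01 : ∀ᶠ n in U, 0 < q n ∧ q n < 1
  qlim : Tendsto q U (𝓝 1)
  M0lim : Tendsto (fun n => (1 - q n) * (M0 n : ℝ)) U atTop
  spos : ∀ᶠ n in U, 0 < sn d v B R q M0 n
  Llim : Tendsto (fun n => (1 - q n) * ((R n).L : ℝ) / sn d v B R q M0 n) U atTop
  cdlim : Tendsto (fun n => (R n).cd v B / sn d v B R q M0 n) U (𝓝 (Ind d v B))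
  glim : ∀ i ∈ E, Tendsto (fun n => ((R n).g i : ℝ) / sn d v B R q M0 n) U (𝓝 (d i))

/-- the (ultrafilter) limit form of relative strictness: near equality implies nearly trivial -/
def Pst {p : ℕ} (d : Fin p → ℕ) (v : ℕ) (B E : Finset (Fin p)) : Prop :=
  ∀ (ι : Type) (U : Ultrafilter ι) (R : ι → Rec p) (q : ι → ℝ) (M0 : ι → ℕ),
    NE d v B E U R q M0 →
    Tendsto (fun n => ((R n).c0 : ℝ) / sn d v B R q M0 n) U (𝓝 1)

end Pool.Agent.KSX
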