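import Pool.Agent.Lib_helper56.KSS.Tau

/-! Equidimensionality of specialisations: every limit point of a point `y` is a specialisation
of a limit point of full transcendence degree.  Uses Zariski's main theorem.  MP_2c2240_ag. -/

namespace Pool.Agent.Lib_helper80.KSX

open MvPolynomial Pool.Agent.Lib_helper56.KSS AlgebraicIndependent

universe u

section top

variable {R A : Type*} [CommRing R] [CommRing A] [Algebra R A]

/-- a prime which is both minimal and maximal in its fibre is an isolated point -/
theorem eq_qf [Algebra.FiniteType R A] (Q : Ideal A) [Q.IsPrime]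
    (hmin : ∀ Q1 : Ideal A, Q1.IsPrime → Q1 ≤ Q → Q1.comap (algebraMap R A) = Q.comap (algebraMap R A) → Q1 = Q)
    (hmax : ∀ Q1 : Ideal A, Q1.IsPrime → Q ≤ Q1 → Q1.comap (algebraMap R A) = Q.comap (algebraMap R A) → Q1 = Q) :
    Algebra.QuasiFiniteAt R Q := by
  let q : PrimeSpectrum A := ⟨Q, inferInstance⟩
  apply Algebra.QuasiFiniteAt.of_isOpen_singleton_fiber q
  let p := q.comap (algebraMap R A)
  let e := PrimeSpectrum.preimageHomeomorphFiber R A p
  have hFT : Algebra.FiniteType p.asIdeal.ResidueField (p.asIdeal.Fiber A) := inferInstance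
  have hN : IsNoetherianRing (p.asIdeal.Fiber A) :=
    Algebra.FiniteType.isNoetherianRing p.asIdeal.ResidueField _
  have hJ : IsJacobsonRing (p.asIdeal.Fiber A) :=
    isJacobsonRing_of_finiteType (A := p.asIdeal.ResidueField)
  let x : PrimeSpectrum.comap (algebraMap R A) ⁻¹' {p} := ⟨q, rfl⟩
  have h1 : IsOpen ({e x} : Set (PrimeSpectrum (p.asIdeal.Fiber A))) := by
    apply ((PrimeSpectrum.isOpen_singleton_tfae_of_isNoetherian_of_isJacobsonRing (e x)).out 0 2).2
    rw [PrimeSpectrum.isClosed_singleton_iff_isMaximal, ← PrimeSpectrum.isMax_iff,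
      PrimeSpectrum.stableUnderGeneralization_singleton, ← PrimeSpectrum.isMin_iff]
    let o := PrimeSpectrum.preimageOrderIsoFiber R A p
    have ho : e x = o x := rfl
    rw [ho]
    constructor
    · rw [OrderIso.isMax_apply]
      intro y hy
      have h2 := hmax y.1.asIdeal y.1.2 hy (congrArg PrimeSpectrum.asIdeal y.2)
      exact (show y.1.asIdeal ≤ x.1.asIdeal from h2.le)
    · rw [OrderIso.isMin_apply]
      intro y hy
      have h2 := hmin y.1.asIdeal y.1.2 hy (congrArg PrimeSpectrum.asIdeal y.2)
      exact (show x.1.asIdeal ≤ y.1.asIdeal from h2.ge)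
  have h2 : ({x} : Set _) = e ⁻¹' {e x} := by
    ext y
    simp
  show IsOpen ({x} : Set _)
  rw [h2]
  exact h1.preimage e.continuous

end top

section alg

variable {R A : Type*} [CommRing R] [CommRing A] [Algebra R A] {K F : Type*} [Field K] [Field F]
  [Algebra K F]

/-- consequence of Zariski's main theorem -/
theorem eq_alg [Algebra.FiniteType R A] (Q : Ideal A) [Q.IsPrime]
    [Algebra.QuasiFiniteAt R Q] (f : A →+* F) (hf : Function.Injective f) (B : Subalgebra K F)
    (hB : ∀ r, f (algebraMap R A r) ∈ B) (a : A) : IsAlgebraic B (f a) := by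
  obtain ⟨r, hr, hri, h⟩ := Algebra.zariskisMainProperty_iff.1
    (Algebra.ZariskisMainProperty.of_finiteType (R := R) Q)
  obtain ⟨m, hm⟩ := h a
  let g : R →+* B := (f.comp (algebraMap R A)).codRestrict B hB
  have hg : (algebraMap B F).comp g = f.comp (algebraMap R A) := by
    ext x
    rfl
  have h1 : IsIntegral B (f r) := IsIntegral.map_of_comp_eq g f hg hri
  have h2 : IsIntegral B (f (r ^ m * a)) := IsIntegral.map_of_comp_eq g f hg hm
  have h3 : f r ≠ 0 := by
    intro h4
    apply hr
    rw [hf (h4.trans (map_zero f).symm)]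
    exact Q.zero_mem
  have h5 : f a = f (r ^ m * a) * ((f r) ^ m)⁻¹ := by
    rw [map_mul, map_pow]
    field_simp
  rw [h5]
  exact h2.isAlgebraic.mul (h1.isAlgebraic.pow m).inv

end alg

section main

/-- an independent subfamily of size `tau` spans -/
theorem closure_of_tau {K F : Type*} [Field K] [Field F] [Algebra K F] {I : Type*} [Finite I]
    (x : I → F) (S : Finset I) (hS : S.card = tau K x)
    (hSi : AlgebraicIndependent K (fun i : S => x i)) (i : I) :
    x i ∈ (matroid K F).closure (Set.range fun s : S => x s) := by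
  have h0 := algInd_iff.1 hSi
  have hsub : (Set.range fun s : S => x s) ⊆ Set.range x := by
    rintro _ ⟨s, rfl⟩; exact ⟨s, rfl⟩
  obtain ⟨J, hJ, hIJ⟩ := h0.2.subset_isBasis_of_subset hsub (Set.subset_univ _)
  have h1 : J.encard = (S.card : ℕ∞) := by
    rw [← hJ.eRk_eq_encard, ← coe_tau, hS]
  have h2 : (Set.range fun s : S => x s).encard = (S.card : ℕ∞) := by
    rw [← Set.image_univ, h0.1.encard_image, Set.encard_univ, ENat.card_eq_coe_fintype_card,
      Fintype.card_coe]
  have h3 : (Set.range fun s : S => x s) = J := by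
    apply Set.Finite.eq_of_subset_of_encard_le (Set.finite_range _) hIJ
    rw [h1, h2]
  rw [h3, hJ.closure_eq_closure]
  exact (matroid K F).mem_closure_of_mem ⟨i, rfl⟩ (Set.subset_univ _)

theorem eq_aux {O K k1 F Fz I A : Type} [CommRing O] [Field K] [Algebra O K] [Field k1]
    (π : O →+* k1) (hπ : Function.Surjective π) [Field F] [Algebra K F] [Field Fz] [Algebra k1 Fz]
    [Finite I] (y : I → F) (z : I → Fz) [CommRing A] (mk : MvPolynomial I O →+* A)
    (hmk : Function.Surjective mk) (ψ : A →+* F) (hψ : Function.Injective ψ)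
    (hψmk : ∀ P, ψ (mk P) = aeval y (map (algebraMap O K) P)) (χ : A →+* Fz)
    (hχmk : ∀ P, χ (mk P) = aeval z (map π P)) :
    ∃ (F0 : Type) (_ : Field F0) (_ : Algebra k1 F0) (y0 : I → F0), tau K y ≤ tau k1 y0 ∧
      (∀ P : MvPolynomial I O, aeval y (map (algebraMap O K) P) = 0 → aeval y0 (map π P) = 0) ∧
      ∀ Q : MvPolynomial I k1, aeval y0 Q = 0 → aeval z Q = 0 := by
  classical
  have hAd : IsDomain A := hψ.isDomain ψ
  let q0 : Ideal A := RingHom.ker χ
  have hq0 : q0.IsPrime := RingHom.ker_isPrime χ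
  let mA : Ideal A := Ideal.map (mk.comp C) (RingHom.ker π)
  have hmA : mA ≤ q0 := by
    rw [Ideal.map_le_iff_le_comap]
    intro c hc
    rw [RingHom.mem_ker] at hc
    show χ (mk (C c)) = 0
    rw [hχmk, map_C, hc, map_zero, map_zero]
  obtain ⟨Q, hQmin, hQq0⟩ := Ideal.exists_minimalPrimes_le (J := q0) hmA
  have hQp : Q.IsPrime := hQmin.1.1
  have hQm : mA ≤ Q := hQmin.1.2
  -- the field F0
  let F0 := FractionRing (A ⧸ Q)
  let ρ : A →+* F0 := (algebraMap (A ⧸ Q) F0).comp (Ideal.Quotient.mk Q)
  have hρ : ∀ a, ρ a = 0 ↔ a ∈ Q := by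
    intro a
    show algebraMap (A ⧸ Q) F0 (Ideal.Quotient.mk Q a) = 0 ↔ _
    rw [map_eq_zero_iff _ (IsFractionRing.injective (A ⧸ Q) F0), Ideal.Quotient.eq_zero_iff_mem]
  have hker : ∀ c : O, π c = 0 → ρ (mk (C c)) = 0 := by
    intro c hc
    rw [hρ]
    exact hQm (Ideal.mem_map_of_mem (mk.comp C) hc)
  let j : k1 →+* F0 := RingHom.liftOfSurjective π hπ
    ⟨ρ.comp (mk.comp C), fun c hc => hker c hc⟩
  have hj : ∀ c, j (π c) = ρ (mk (C c)) := fun c =>
    RingHom.liftOfRightInverse_comp_apply _ _ _ _ _
  let : Algebra k1 F0 := j.toAlgebra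
  let y0 : I → F0 := fun i => ρ (mk (X i))
  have hy0 : ∀ P : MvPolynomial I O, aeval y0 (map π P) = ρ (mk P) := by
    intro P
    have : ((aeval (R := k1) y0).toRingHom.comp (map π)) = ρ.comp mk := by
      apply MvPolynomial.ringHom_ext
      · intro c
        simp only [RingHom.comp_apply, map_C, AlgHom.toRingHom_eq_coe, RingHom.coe_coe, aeval_C]
        exact hj c
      · intro i
        simp [y0]
    exact congrArg (fun f => f P) this
  refine ⟨F0, inferInstance, inferInstance, y0, ?_, ?_, ?_⟩
  · obtain ⟨S, hS, hSi⟩ := exists_tau (K := k1) y0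
    -- the base ring R = O[S]
    let ι : MvPolynomial S O →+* MvPolynomial I O := (rename (fun s : S => (s : I))).toRingHom
    let : Algebra (MvPolynomial S O) A := (mk.comp ι).toAlgebra
    let : Algebra O A := (mk.comp C).toAlgebra
    have hOA : ∀ c : O, algebraMap O A c = mk (C c) := fun c => rfl
    have hRA : ∀ P : MvPolynomial S O, algebraMap (MvPolynomial S O) A P =
        mk (rename (fun s : S => (s : I)) P) := fun c => rfl
    have : IsScalarTower O (MvPolynomial S O) A := by
      apply IsScalarTower.of_algebraMap_eq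
      intro c
      rw [hRA, hOA, algebraMap_eq, rename_C]
    let mk' : MvPolynomial I O →ₐ[O] A := { mk with commutes' := fun c => rfl }
    have : Algebra.FiniteType O A :=
      Algebra.FiniteType.of_surjective mk' hmk
    have : Algebra.FiniteType (MvPolynomial S O) A :=
      Algebra.FiniteType.of_restrictScalars_finiteType O (MvPolynomial S O) A
    -- the contraction of Q
    have hρR : ∀ P : MvPolynomial S O, ρ (algebraMap _ A P) =
        aeval (fun s : S => y0 s) (map π P) := by
      intro P
      rw [hRA, ← hy0, map_rename, aeval_rename]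
      rfl
    have hmin : ∀ Q1 : Ideal A, Q1.IsPrime → Q1 ≤ Q →
        Q1.comap (algebraMap (MvPolynomial S O) A) = Q.comap (algebraMap _ A) → Q1 = Q := by
      intro Q1 h1 h2 h3
      apply le_antisymm h2
      apply hQmin.2 ⟨h1, ?_⟩ h2
      rw [Ideal.map_le_iff_le_comap]
      intro c hc
      have h4 : algebraMap (MvPolynomial S O) A (C c) ∈ Q := by
        rw [hRA, rename_C]
        exact hQm (Ideal.mem_map_of_mem (mk.comp C) hc)
      have h5 : (C c : MvPolynomial S O) ∈ Q1.comap (algebraMap _ A) := by
        rw [h3]; exact h4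
      rw [Ideal.mem_comap, hRA, rename_C] at h5
      exact h5
    have hcl : ∀ a : A, ρ a ∈ (matroid k1 F0).closure (Set.range fun s : S => y0 s) := by
      intro a
      obtain ⟨P, rfl⟩ := hmk a
      have h1 : ρ (mk P) ∈ (matroid k1 F0).closure (Set.range y0) := by
        apply mem_closure_of_adjoin
        rw [← hy0, Algebra.adjoin_range_eq_range_aeval]
        exact ⟨_, rfl⟩
      apply (matroid k1 F0).closure_subset_closure_of_subset_closure _ h1
      rintro _ ⟨i, rfl⟩
      exact closure_of_tau y0 S hS hSi i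
    have hmax : ∀ Q1 : Ideal A, Q1.IsPrime → Q ≤ Q1 →
        Q1.comap (algebraMap (MvPolynomial S O) A) = Q.comap (algebraMap _ A) → Q1 = Q := by
      intro Q1 h1 h2 h3
      apply le_antisymm _ h2
      intro a ha
      by_contra hne
      have ha0 : ρ a ≠ 0 := fun h => hne ((hρ a).1 h)
      have h4 := Pool.Agent.Lib_helper56.KSS.mem_closure_iff.1 (hcl a)
      obtain ⟨f, hf0, hf⟩ := h4.exists_nonzero_coeff_and_aeval_eq_zero
        (mem_nonZeroDivisors_of_ne_zero ha0)
      have h5 : ∀ n, ∃ P : MvPolynomial S O, ρ (algebraMap _ A P) = (f.coeff n : F0) := by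
        intro n
        have h6 : ((f.coeff n : F0)) ∈ (aeval (R := k1) fun s : S => y0 s).range :=
          (Algebra.adjoin_range_eq_range_aeval k1 (fun s : S => y0 s)).le (f.coeff n).2
        obtain ⟨P, hP⟩ := h6
        obtain ⟨P, rfl⟩ := map_surjective π hπ P
        exact ⟨P, (hρR P).trans hP⟩
      choose g hg using h5
      have h6 : ∑ n ∈ Finset.range (f.natDegree + 1), algebraMap _ A (g n) * a ^ n ∈ Q := by
        rw [← hρ, map_sum]
        rw [Polynomial.aeval_eq_sum_range] at hf
        rw [← hf]
        apply Finset.sum_congr rfl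
        intro n _
        rw [map_mul, map_pow, hg]
        rfl
      rw [Finset.sum_range_succ'] at h6
      have h7 : algebraMap _ A (g 0) ∈ Q1 := by
        have h8 := h2 h6
        rw [pow_zero, mul_one] at h8
        rw [← Ideal.add_mem_iff_right Q1 (a := ∑ n ∈ Finset.range f.natDegree,
          algebraMap _ A (g (n + 1)) * a ^ (n + 1))]
        · exact h8
        · apply Ideal.sum_mem
          intro n _
          rw [pow_succ]
          exact Ideal.mul_mem_left _ _ (Ideal.mul_mem_left _ _ ha)
      have h8 : g 0 ∈ Q.comap (algebraMap _ A) := by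
        rw [← h3]; exact h7
      have h9 := (hρ _).2 h8
      rw [hg] at h9
      exact hf0 (Subtype.ext h9)
    have := eq_qf (R := MvPolynomial S O) Q hmin hmax
    have h1 : ∀ i, y i ∈ (matroid K F).closure (Set.range fun s : S => y s) := by
      intro i
      rw [Pool.Agent.Lib_helper56.KSS.mem_closure_iff]
      have h2 := eq_alg (R := MvPolynomial S O) Q ψ hψ
        (Algebra.adjoin K (Set.range fun s : S => y s)) ?_ (mk (X i))
      · rwa [hψmk, map_X, aeval_X] at h2
      · intro r
        rw [hRA, hψmk, map_rename, aeval_rename]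
        rw [Algebra.adjoin_range_eq_range_aeval]
        exact ⟨_, rfl⟩
    have h2 := tau_le_of_closure (K := K) (fun s : S => y s) y h1
    have h3 := tau_le_card (K := K) (fun s : S => y s)
    rw [Nat.card_eq_fintype_card, Fintype.card_coe, hS] at h3
    exact h2.trans h3
  · intro P hP
    rw [hy0, hρ]
    have : mk P = 0 := by
      apply hψ
      rw [hψmk, hP, map_zero]
    rw [this]
    exact Q.zero_mem
  · intro P hP
    obtain ⟨P, rfl⟩ := map_surjective π hπ P
    rw [hy0, hρ] at hP
    have h1 := hQq0 hP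
    exact (hχmk P).symm.trans h1

/-- LEMMA EQ.  `z` is a limit point of `y` (all `O`-polynomial relations of `y` reduce to
relations of `z`).  Then there is a limit point `y0` of `y` of transcendence degree `≥ tau K y`
which specialises to `z`. -/
theorem EQ {O K k1 F Fz I : Type} [CommRing O] [Field K] [Algebra O K] [Field k1]
    (π : O →+* k1) (hπ : Function.Surjective π) [Field F] [Algebra K F] [Field Fz] [Algebra k1 Fz]
    [Finite I] (y : I → F) (z : I → Fz)
    (hz : ∀ P : MvPolynomial I O, aeval y (map (algebraMap O K) P) = 0 →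
      aeval z (map π P) = 0) :
    ∃ (F0 : Type) (_ : Field F0) (_ : Algebra k1 F0) (y0 : I → F0), tau K y ≤ tau k1 y0 ∧
      (∀ P : MvPolynomial I O, aeval y (map (algebraMap O K) P) = 0 → aeval y0 (map π P) = 0) ∧
      ∀ Q : MvPolynomial I k1, aeval y0 Q = 0 → aeval z Q = 0 := by
  let φ : MvPolynomial I O →+* F :=
    (aeval (R := K) y).toRingHom.comp (map (algebraMap O K))
  let χ0 : MvPolynomial I O →+* Fz := (aeval (R := k1) z).toRingHom.comp (map π)
  exact eq_aux (A := MvPolynomial I O ⧸ RingHom.ker φ) π hπ y z (Ideal.Quotient.mk _)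
    Ideal.Quotient.mk_surjective (RingHom.kerLift φ) (RingHom.kerLift_injective φ)
    (fun P => rfl) (Ideal.Quotient.lift (RingHom.ker φ) χ0 (fun P hP => hz P hP))
    (fun P => Ideal.Quotient.lift_mk _ _ _)

end main

end Pool.Agent.Lib_helper80.KSX
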