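import Pool.Agent.Lib_helper80.KSX.EQ
import Pool.Agent.Lib_helper56.KSS.SLA
import Pool.Agent.Lib_helper56.KSS.TI

/-! Homogeneous versions of Lemma EQ.  MP_2c2240_ag. -/

namespace Pool.Agent.Lib_helper80.KSX

open MvPolynomial Pool.Agent.Lib_helper56.KSS AlgebraicIndependent

theorem map_whc {R S : Type} [CommRing R] [CommRing S] {I : Type} (f : R →+* S) (w : I → ℕ) (D : ℕ)
    (P : MvPolynomial I R) : MvPolynomial.map f (weightedHomogeneousComponent w D P) =
      weightedHomogeneousComponent w D (MvPolynomial.map f P) := by
  ext d
  rw [coeff_map, coeff_weightedHomogeneousComponent, coeff_weightedHomogeneousComponent, coeff_map]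
  split_ifs <;> simp

theorem whom_map {R S : Type} [CommRing R] [CommRing S] {I : Type} (f : R →+* S) {w : I → ℕ} {D : ℕ}
    {P : MvPolynomial I R} (h : IsWeightedHomogeneous w P D) :
    IsWeightedHomogeneous w (MvPolynomial.map f P) D := by
  intro d hd
  rw [coeff_map] at hd
  exact h (fun h0 => hd (by rw [h0, map_zero]))

/-- generic scaling does not decrease `tau` -/
theorem tau_yv {K F : Type} [Field K] [Field F] [Algebra K F] {I : Type} [Finite I]
    (w : I → ℕ) (y : I → F) :
    tau K y ≤ tau K (fun i => algebraMap (Polynomial F) (FractionRing (Polynomial F)) (yv w y i)) := by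
  classical
  obtain ⟨s, hs1, hs2⟩ := exists_tau (K := K) y
  have h1 : AlgebraicIndependent K (fun i : s => yv w y i) := by
    rw [algebraicIndependent_iff]
    intro P hP
    by_contra hne
    have h2 : ∀ D, weightedHomogeneousComponent (fun i : s => w i) D P = 0 := by
      intro D
      rw [algebraicIndependent_iff] at hs2
      apply hs2
      rw [← coeff_aeval_yv (fun i : s => w i) (fun i : s => y i) P D]
      have : aeval (yv (fun i : s => w i) (fun i : s => y i)) P = 0 := hP
      rw [this, Polynomial.coeff_zero]
    apply hne
    ext d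
    have h3 := congrArg (coeff d) (h2 (Finsupp.weight (fun i : s => w i) d))
    rw [coeff_weightedHomogeneousComponent, if_pos rfl] at h3
    exact h3
  have h2 := h1.map' (f := IsScalarTower.toAlgHom K (Polynomial F) (FractionRing (Polynomial F)))
    (IsFractionRing.injective _ _)
  have h3 := card_le_tau' (K := K)
    (fun i => algebraMap (Polynomial F) (FractionRing (Polynomial F)) (yv w y i))
    (fun i : s => (i : I)) h2
  rw [Nat.card_eq_fintype_card, Fintype.card_coe, hs1] at h3
  exact h3

/-- `z` is a `w`-homogeneous limit point of `y` along `π : O → k1` -/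
def Lim {O K k1 F Fz I : Type} [CommRing O] [Field K] [Algebra O K] [Field k1]
    (π : O →+* k1) [Field F] [Algebra K F] [Field Fz] [Algebra k1 Fz]
    (w : I → ℕ) (y : I → F) (z : I → Fz) : Prop :=
  ∀ (P : MvPolynomial I O) (D : ℕ), IsWeightedHomogeneous w P D →
    aeval y (map (algebraMap O K) P) = 0 → aeval z (map π P) = 0

/-- `y` specialises to `z` (homogeneous relations) -/
def Spec {k F Fz I : Type} [Field k] [Field F] [Algebra k F] [Field Fz] [Algebra k Fz]
    (w : I → ℕ) (y : I → F) (z : I → Fz) : Prop :=
  ∀ (P : MvPolynomial I k) (D : ℕ), IsWeightedHomogeneous w P D → aeval y P = 0 → aeval z P = 0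

/-- homogeneous version of `EQ` -/
theorem EQh {O K k1 F Fz I : Type} [CommRing O] [Field K] [Algebra O K] [Field k1]
    (π : O →+* k1) (hπ : Function.Surjective π) [Field F] [Algebra K F] [Field Fz] [Algebra k1 Fz]
    [Finite I] (w : I → ℕ) (y : I → F) (z : I → Fz) (hz : Lim (K := K) π w y z) :
    ∃ (F0 : Type) (_ : Field F0) (_ : Algebra k1 F0) (y0 : I → F0), tau K y ≤ tau k1 y0 ∧
      Lim (K := K) π w y y0 ∧ Spec (k := k1) w y0 z := by
  classical
  let F' := FractionRing (Polynomial F)
  let Fz' := FractionRing (Polynomial Fz)
  let y' : I → F' := fun i => algebraMap (Polynomial F) F' (yv w y i)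
  let z' : I → Fz' := fun i => algebraMap (Polynomial Fz) Fz' (yv w z i)
  have hy' : ∀ P : MvPolynomial I K, aeval y' P = algebraMap (Polynomial F) F' (aeval (yv w y) P) := by
    intro P
    exact aeval_algebraMap_apply _ _ _
  have hz' : ∀ P : MvPolynomial I k1, aeval z' P =
      algebraMap (Polynomial Fz) Fz' (aeval (yv w z) P) := by
    intro P
    exact aeval_algebraMap_apply _ _ _
  obtain ⟨F0, i1, i2, y0, h1, h2, h3⟩ := EQ (K := K) π hπ y' z' (by
    intro P hP
    rw [hy', map_eq_zero_iff _ (IsFractionRing.injective (Polynomial F) F')] at hP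
    rw [hz', map_eq_zero_iff _ (IsFractionRing.injective (Polynomial Fz) Fz')]
    ext D
    rw [coeff_aeval_yv, Polynomial.coeff_zero, ← map_whc]
    apply hz _ D (weightedHomogeneousComponent_isWeightedHomogeneous D P)
    rw [map_whc, ← coeff_aeval_yv, hP, Polynomial.coeff_zero])
  refine ⟨F0, i1, i2, y0, (tau_yv w y).trans h1, ?_, ?_⟩
  · intro P D hP h
    apply h2
    rw [hy', aeval_yv_homog w y (whom_map _ hP) h, map_zero]
  · intro P D hP h
    have h4 := h3 P h
    rw [hz', map_eq_zero_iff _ (IsFractionRing.injective (Polynomial Fz) Fz')] at h4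
    have h5 := congrArg (fun f => f.coeff D) h4
    simp only [Polynomial.coeff_zero] at h5
    rw [coeff_aeval_yv, weightedHomogeneousComponent_eq_self hP] at h5
    exact h5

/-- `z` is a limit point of `y` under the one-parameter group of weights `ω` -/
def TLim {k F Fz I : Type} [Field k] [Field F] [Algebra k F] [Field Fz] [Algebra k Fz]
    (w ω : I → ℕ) (y : I → F) (z : I → Fz) : Prop :=
  ∀ (P : MvPolynomial I k) (D χ : ℕ), IsWeightedHomogeneous w P D → aeval y P = 0 →
    (∀ d ∈ P.support, χ ≤ Finsupp.weight ω d) →
    aeval z (weightedHomogeneousComponent ω χ P) = 0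

theorem ps_coeff {k F I : Type} [Field k] [Field F] [Algebra k F] (u : I → ℕ) (y : I → F)
    (P : MvPolynomial I (PowerSeries k)) (m : ℕ) :
    PowerSeries.coeff m (aeval (fun i => (PowerSeries.C (y i) * PowerSeries.X ^ (u i) : PowerSeries F)) P) =
      aeval y (∑ d ∈ P.support, monomial d
        (if Finsupp.weight u d ≤ m then PowerSeries.coeff (m - Finsupp.weight u d) (coeff d P) else 0)) := by
  classical
  conv_lhs => rw [P.as_sum]
  rw [map_sum, map_sum, map_sum]
  apply Finset.sum_congr rfl
  intro d _
  rw [aeval_monomial, aeval_monomial]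
  have h2 : (d.prod fun i k => (PowerSeries.C (y i) * PowerSeries.X ^ (u i) : PowerSeries F) ^ k) =
      PowerSeries.C (d.prod fun i k => y i ^ k) * PowerSeries.X ^ (Finsupp.weight u d) := by
    simp only [Finsupp.prod, mul_pow, Finset.prod_mul_distrib, map_prod, map_pow]
    congr 1
    simp only [← pow_mul]
    rw [Finset.prod_pow_eq_pow_sum]
    congr 1
    rw [Finsupp.weight_apply, Finsupp.sum]
    exact Finset.sum_congr rfl fun i _ => by simp [mul_comm]
  rw [h2, PowerSeries.algebraMap_apply'', ← mul_assoc, PowerSeries.coeff_mul_X_pow']
  split_ifs with h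
  · rw [mul_comm, PowerSeries.coeff_C_mul, PowerSeries.coeff_map, mul_comm]
  · rw [map_zero, zero_mul]

theorem EQTI {k F Fz I : Type} [Field k] [Field F] [Algebra k F] [Field Fz] [Algebra k Fz]
    [Finite I] (w ω : I → ℕ) (hw : ∀ i, 0 < w i) (y : I → F) (z : I → Fz)
    (hz : TLim (k := k) w ω y z) :
    ∃ (F0 : Type) (_ : Field F0) (_ : Algebra k F0) (y0 : I → F0), tau k y ≤ tau k y0 ∧
      TLim (k := k) w ω y y0 ∧ Spec (k := k) w y0 z := by
  classical
  let K' := FractionRing (PowerSeries k)
  let F' := FractionRing (PowerSeries F)
  have hfs : FaithfulSMul (PowerSeries k) (FractionRing (PowerSeries F)) := by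
    rw [faithfulSMul_iff_algebraMap_injective]
    have h1 : (algebraMap (PowerSeries k) (FractionRing (PowerSeries F))) =
        (algebraMap (PowerSeries F) (FractionRing (PowerSeries F))).comp
          (algebraMap (PowerSeries k) (PowerSeries F)) := IsScalarTower.algebraMap_eq _ _ _
    rw [h1]
    apply (IsFractionRing.injective (PowerSeries F) (FractionRing (PowerSeries F))).comp
    intro a b hab
    change PowerSeries.map (algebraMap k F) a = PowerSeries.map (algebraMap k F) b at hab
    ext n
    have h2 := congrArg (PowerSeries.coeff n) hab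
    rw [PowerSeries.coeff_map, PowerSeries.coeff_map] at h2
    exact (algebraMap k F).injective h2
  let alg : Algebra K' F' := FractionRing.liftAlgebra (PowerSeries k) (FractionRing (PowerSeries F))
  have tow : IsScalarTower (PowerSeries k) K' F' := FractionRing.isScalarTower_liftAlgebra _ _
  -- a bound
  obtain ⟨B, hB⟩ : ∃ B, ∀ i, ω i ≤ B := by
    have := Fintype.ofFinite I
    exact ⟨∑ i, ω i, fun i => Finset.single_le_sum (f := ω) (fun _ _ => Nat.zero_le _)
      (Finset.mem_univ i)⟩
  let u : I → ℕ := fun i => B * w i - ω i
  have hu : ∀ i, u i + ω i = B * w i := by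
    intro i
    have h1 := hB i
    have h2 := hw i
    have h3 : B * 1 ≤ B * w i := Nat.mul_le_mul_left B h2
    simp only [u]
    omega
  have hud : ∀ d : I →₀ ℕ, Finsupp.weight u d + Finsupp.weight ω d = B * Finsupp.weight w d := by
    intro d
    simp only [Finsupp.weight_apply, Finsupp.sum, smul_eq_mul]
    rw [← Finset.sum_add_distrib, Finset.mul_sum]
    apply Finset.sum_congr rfl
    intro i _
    rw [← mul_add, hu]
    ring
  let Y : I → PowerSeries F := fun i => PowerSeries.C (y i) * PowerSeries.X ^ (u i)
  let y' : I → F' := fun i => algebraMap (PowerSeries F) F' (Y i)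
  have hy' : ∀ P : MvPolynomial I (PowerSeries k), aeval y' (map (algebraMap (PowerSeries k) K') P) =
      algebraMap (PowerSeries F) F' (aeval Y P) := by
    intro P
    rw [aeval_map_algebraMap]
    exact aeval_algebraMap_apply _ _ _
  obtain ⟨F0, i1, i2, y0, h1, h2, h3⟩ := EQh (K := K') (PowerSeries.constantCoeff (R := k))
    PowerSeries.constantCoeff_surj w y' z (by
    intro P D hP h
    rw [hy', map_eq_zero_iff _ (IsFractionRing.injective (PowerSeries F) F')] at h
    -- the components
    have key : ∀ χ, aeval z (weightedHomogeneousComponent ω χ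
        (map (PowerSeries.constantCoeff (R := k)) P)) = 0 := by
      intro χ
      by_cases hχ : χ ≤ B * D
      · let Q : MvPolynomial I k := ∑ d ∈ P.support, monomial d
          (if Finsupp.weight u d ≤ B * D - χ then
            PowerSeries.coeff (B * D - χ - Finsupp.weight u d) (coeff d P) else 0)
        have hQ0 : aeval y Q = 0 := by
          rw [← ps_coeff u y P (B * D - χ)]
          have : (aeval fun i => (PowerSeries.C (y i) * PowerSeries.X ^ (u i) : PowerSeries F)) P = 0 := h
          rw [this, map_zero]
        have hQc : ∀ d, coeff d Q = if d ∈ P.support then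
          (if Finsupp.weight u d ≤ B * D - χ then
            PowerSeries.coeff (B * D - χ - Finsupp.weight u d) (coeff d P) else 0) else 0 := by
          intro d
          simp only [Q, coeff_sum, coeff_monomial]
          rw [Finset.sum_ite_eq']
        have hQs : ∀ d ∈ Q.support, d ∈ P.support ∧ Finsupp.weight u d ≤ B * D - χ := by
          intro d hd
          rw [mem_support_iff, hQc] at hd
          split_ifs at hd with h4 h5
          · exact ⟨h4, h5⟩
          · exact absurd rfl hd
          · exact absurd rfl hd
        have h4 := hz Q D χ (fun {d} hd => hP (mem_support_iff.1 (hQs d (mem_support_iff.2 hd)).1)) hQ0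
          (by
            intro d hd
            obtain ⟨h5, h6⟩ := hQs d hd
            have h7 := hud d
            rw [hP (mem_support_iff.1 h5)] at h7
            omega)
        rw [← h4]
        congr 1
        ext d
        rw [coeff_weightedHomogeneousComponent, coeff_weightedHomogeneousComponent, coeff_map, hQc]
        by_cases h5 : Finsupp.weight ω d = χ
        · rw [if_pos h5, if_pos h5]
          by_cases h6 : d ∈ P.support
          · have h7 := hud d
            rw [hP (mem_support_iff.1 h6)] at h7
            rw [if_pos h6, if_pos (by omega)]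
            have h8 : B * D - χ - Finsupp.weight u d = 0 := by omega
            rw [h8, PowerSeries.coeff_zero_eq_constantCoeff_apply]
          · rw [if_neg h6, notMem_support_iff.1 h6, map_zero]
        · rw [if_neg h5, if_neg h5]
      · have : weightedHomogeneousComponent ω χ (map (PowerSeries.constantCoeff (R := k)) P) = 0 := by
          ext d
          rw [coeff_weightedHomogeneousComponent, coeff_zero, coeff_map]
          split_ifs with h5
          · by_contra h6
            have h7 : coeff d P ≠ 0 := fun h8 => h6 (by rw [h8, map_zero])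
            have h8 := hud d
            rw [hP h7] at h8
            omega
          · rfl
        rw [this, map_zero]
    let T := ∑ d ∈ (map (PowerSeries.constantCoeff (R := k)) P).support, Finsupp.weight ω d
    rw [← trn_eq_self ω T (map (PowerSeries.constantCoeff (R := k)) P) (fun d hd =>
      Finset.single_le_sum (f := fun d => Finsupp.weight ω d) (fun _ _ => Nat.zero_le _) hd)]
    rw [trn, map_sum]
    exact Finset.sum_eq_zero fun χ _ => key χ)
  refine ⟨F0, i1, i2, y0, ?_, ?_, h3⟩
  · apply le_trans _ h1
    obtain ⟨s, hs1, hs2⟩ := exists_tau (K := k) y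
    have h3 := ti_algInd _ hs2
    let e : F →+* F' := (algebraMap (PowerSeries F) (FractionRing (PowerSeries F))).comp PowerSeries.C
    have h4 : AlgebraicIndependent (PowerSeries k) (fun i : s => e (y i)) :=
      h3.map' (f := IsScalarTower.toAlgHom (PowerSeries k) (PowerSeries F) F')
        (IsFractionRing.injective _ _)
    have h5 : AlgebraicIndependent K' (fun i : s => e (y i)) := by
      have : Algebra.IsAlgebraic (PowerSeries k) K' :=
        IsLocalization.isAlgebraic K' (nonZeroDivisors (PowerSeries k))
      exact h4.extendScalars K'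
    let t : K' := algebraMap (PowerSeries k) K' PowerSeries.X
    have ht : t ≠ 0 := by
      intro h
      have : (PowerSeries.X : PowerSeries k) = 0 :=
        IsFractionRing.injective (PowerSeries k) K' (by rw [map_zero]; exact h)
      exact PowerSeries.X_ne_zero this
    have h6 := card_le_tau y' _ h5 (by
      intro j
      apply mem_closure_of_adjoin
      have h7 : e (y j) = ((t ^ (u j))⁻¹) • y' j := by
        rw [Algebra.smul_def]
        have h8 : y' j = algebraMap K' F' (t ^ (u j)) * e (y j) := by
          simp only [y', Y, e, t]
          rw [← map_pow, ← IsScalarTower.algebraMap_apply (PowerSeries k) K' F',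
            IsScalarTower.algebraMap_apply (PowerSeries k) (PowerSeries F) F',
            PowerSeries.algebraMap_apply'', map_pow, PowerSeries.map_X, RingHom.comp_apply,
            ← map_mul, mul_comm]
        rw [h8, ← mul_assoc, ← map_mul, inv_mul_cancel₀ (pow_ne_zero _ ht), map_one, one_mul]
      rw [h7]
      exact Subalgebra.smul_mem _ (Algebra.subset_adjoin (Set.mem_range_self (j : I))) _)
    rw [Nat.card_eq_fintype_card, Fintype.card_coe, hs1] at h6
    exact h6
  · intro P D χ hP hx hχ
    by_cases hP0 : P = 0
    · rw [hP0, map_zero, map_zero]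
    let Pt : MvPolynomial I (PowerSeries k) := ∑ d ∈ P.support,
      monomial d (PowerSeries.C (coeff d P) * PowerSeries.X ^ (Finsupp.weight ω d - χ))
    have hcoeff : ∀ d, coeff d Pt = if d ∈ P.support then
        PowerSeries.C (coeff d P) * PowerSeries.X ^ (Finsupp.weight ω d - χ) else 0 := by
      intro d
      simp only [Pt, coeff_sum, coeff_monomial]
      rw [Finset.sum_ite_eq']
    have hm : MvPolynomial.map (PowerSeries.constantCoeff (R := k)) Pt =
        weightedHomogeneousComponent ω χ P := by
      ext d
      rw [coeff_map, hcoeff, coeff_weightedHomogeneousComponent]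
      by_cases hd : d ∈ P.support
      · rw [if_pos hd]
        by_cases hw : Finsupp.weight ω d = χ
        · rw [if_pos hw, hw, Nat.sub_self, pow_zero, mul_one, PowerSeries.constantCoeff_C]
        · rw [if_neg hw, map_mul, map_pow, PowerSeries.constantCoeff_X, zero_pow, mul_zero]
          have := hχ d hd
          omega
      · rw [if_neg hd, map_zero, notMem_support_iff.1 hd]
        split_ifs <;> rfl
    rw [← hm]
    apply h2 Pt D
    · intro d hd
      rw [hcoeff] at hd
      split_ifs at hd with h
      · exact hP (mem_support_iff.1 h)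
      · exact absurd rfl hd
    · rw [hy', map_eq_zero_iff _ (IsFractionRing.injective (PowerSeries F) F')]
      have hBD : ∀ d ∈ P.support, Finsupp.weight u d + (Finsupp.weight ω d - χ) = B * D - χ := by
        intro d hd
        have h7 := hud d
        rw [hP (mem_support_iff.1 hd)] at h7
        have h8 := hχ d hd
        omega
      have h8 : aeval Y Pt = PowerSeries.X ^ (B * D - χ) * PowerSeries.C (aeval y P) := by
        simp only [Pt, map_sum]
        conv_rhs => rw [P.as_sum]
        rw [map_sum, map_sum, Finset.mul_sum]
        apply Finset.sum_congr rfl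
        intro d hd
        rw [aeval_monomial, aeval_monomial]
        have h2 : (d.prod fun i k => Y i ^ k) =
            PowerSeries.C (d.prod fun i k => y i ^ k) * PowerSeries.X ^ (Finsupp.weight u d) := by
          simp only [Y, Finsupp.prod, mul_pow, Finset.prod_mul_distrib, map_prod, map_pow]
          congr 1
          simp only [← pow_mul]
          rw [Finset.prod_pow_eq_pow_sum]
          congr 1
          rw [Finsupp.weight_apply, Finsupp.sum]
          exact Finset.sum_congr rfl fun i _ => by simp [mul_comm]
        rw [h2, PowerSeries.algebraMap_apply'', map_mul, map_pow, PowerSeries.map_X,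
          PowerSeries.map_C, map_mul, ← hBD d hd, pow_add]
        ring
      rw [h8, hx, map_zero, mul_zero]

end Pool.Agent.Lib_helper80.KSX
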